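import Pool.Agent.N594.CT.Stm

/-!
# Project CT, part GS (helper123): a good sample exists
-/

set_option autoImplicit false

open Finset
open scoped Classical

namespace Pool.Agent.N123.CT.GS

open Pool.Agent.N594.CT

lemma sum_coord {V : Type} [Fintype V] {s : ℕ} (i : Fin s) (g : V → ℝ) :
    (Fintype.card V : ℝ) * ∑ S : Fin s → V, g (S i) = (Fintype.card V : ℝ) ^ s * ∑ v, g v := by
  have h1 : ∑ S : Fin s → V, g (S i) = ∑ p : V × ({ j // j ≠ i } → V), g p.1 :=
    Fintype.sum_equiv (Equiv.funSplitAt i V) _ _ fun S => rfl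
  have h2 : ∑ p : V × ({ j // j ≠ i } → V), g p.1 =
      (Fintype.card V : ℝ) ^ (s - 1) * ∑ v, g v := by
    rw [Fintype.sum_prod_type, Finset.mul_sum]
    refine Finset.sum_congr rfl fun v _ => ?_
    simp only
    rw [Finset.sum_const, Finset.card_univ, Fintype.card_fun, nsmul_eq_mul]
    have h3 : Fintype.card { j // j ≠ i } = s - 1 := by
      rw [Fintype.card_subtype_compl, Fintype.card_fin]
      simp
    rw [h3]
    push_cast
    rfl
  have hs : 1 ≤ s := by
    have := i.2
    omega
  rw [h1, h2, ← mul_assoc, ← pow_succ', Nat.sub_add_cancel hs]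

theorem main (hV : S_VAR) : S_GS := by
  intro V _ _ H l s Bad ε hs hε hBad
  have hn1 : (0 : ℝ) < Fintype.card V := by exact_mod_cast Fintype.card_pos
  have hs0 : (0 : ℝ) < s := by exact_mod_cast hs
  have hr0 : 0 < Real.sqrt s := Real.sqrt_pos.2 hs0
  -- the three sums
  have h1 : ∑ S : Fin s → V, ((univ.filter fun i : Fin s => S i ∈ Bad).card : ℝ) / s ≤
      ε * (Fintype.card V : ℝ) ^ s := by
    have e1 : ∀ i : Fin s, ∑ S : Fin s → V, (if S i ∈ Bad then (1 : ℝ) else 0) ≤
        ε * (Fintype.card V : ℝ) ^ s := by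
      intro i
      have e2 := sum_coord i (fun v => if v ∈ Bad then (1 : ℝ) else 0)
      have e3 : ∑ v, (if v ∈ Bad then (1 : ℝ) else 0) = Bad.card := by
        rw [Finset.sum_ite_mem, Finset.univ_inter, Finset.sum_const, nsmul_eq_mul, mul_one]
      rw [e3] at e2
      have e4 : (Fintype.card V : ℝ) ^ s * (Bad.card : ℝ) ≤
          (Fintype.card V : ℝ) ^ s * (ε * Fintype.card V) :=
        mul_le_mul_of_nonneg_left hBad (by positivity)
      rw [← e2] at e4
      have e5 : (Fintype.card V : ℝ) * ∑ S : Fin s → V, (if S i ∈ Bad then (1 : ℝ) else 0) ≤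
          (Fintype.card V : ℝ) * (ε * (Fintype.card V : ℝ) ^ s) := by
        refine e4.trans (le_of_eq ?_)
        ring
      exact le_of_mul_le_mul_left e5 hn1
    rw [← Finset.sum_div, div_le_iff₀ hs0]
    simp only [Finset.natCast_card_filter]
    rw [Finset.sum_comm]
    refine (Finset.sum_le_sum fun i _ => e1 i).trans (le_of_eq ?_)
    rw [Finset.sum_const, Finset.card_univ, Fintype.card_fin, nsmul_eq_mul]
    ring
  have h2 : ∑ S : Fin s → V, (∑ i, |sdg l H S i - dg l H (S i)|) / s ≤
      2 * l / Real.sqrt s * (Fintype.card V : ℝ) ^ s := by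
    rw [← Finset.sum_div, div_le_iff₀ hs0, Finset.sum_comm]
    have e1 : ∀ i : Fin s, ∑ S : Fin s → V, |sdg l H S i - dg l H (S i)| ≤
        2 * l / Real.sqrt s * (Fintype.card V : ℝ) ^ s := by
      intro i
      have e2 := hV V l s i (fun w z => if H (insert w (univ.image z)) then (1 : ℝ) else 0)
        (fun w z => by split_ifs <;> norm_num) (fun w z => by split_ifs <;> norm_num)
      refine le_trans (le_of_eq ?_) e2
      refine Finset.sum_congr rfl fun S _ => ?_
      unfold sdg dg
      rw [Finset.natCast_card_filter, Finset.natCast_card_filter]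
    refine (Finset.sum_le_sum fun i _ => e1 i).trans (le_of_eq ?_)
    rw [Finset.sum_const, Finset.card_univ, Fintype.card_fin, nsmul_eq_mul]
    ring
  have h3 : ∑ S : Fin s → V, (∑ y : Fin l → V, |Wt l H S y - Dt l H y|) /
      (Fintype.card V : ℝ) ^ l ≤ 2 / Real.sqrt s * (Fintype.card V : ℝ) ^ s := by
    rw [← Finset.sum_div, div_le_iff₀ (by positivity), Finset.sum_comm]
    have e1 : ∀ y : Fin l → V, ∑ S : Fin s → V, |Wt l H S y - Dt l H y| ≤
        2 / Real.sqrt s * (Fintype.card V : ℝ) ^ s := by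
      intro y
      have e2 := hV V 1 s ⟨0, hs⟩
        (fun _ z => if H (insert (z 0) (univ.image y)) then (1 : ℝ) else 0)
        (fun w z => by split_ifs <;> norm_num) (fun w z => by split_ifs <;> norm_num)
      rw [Nat.cast_one, mul_one] at e2
      refine le_trans (le_of_eq ?_) e2
      refine Finset.sum_congr rfl fun S _ => ?_
      unfold Wt Dt
      rw [Finset.natCast_card_filter, Finset.natCast_card_filter, pow_one, pow_one]
      have e3 : ∑ i : Fin s, (if H (insert (S i) (univ.image y)) then (1 : ℝ) else 0) =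
          ∑ z : Fin 1 → Fin s, (if H (insert (S (z 0)) (univ.image y)) then (1 : ℝ) else 0) :=
        (Fintype.sum_equiv (Equiv.funUnique (Fin 1) (Fin s)) _ _ fun z => rfl).symm
      have e4 : ∑ w : V, (if H (insert w (univ.image y)) then (1 : ℝ) else 0) =
          ∑ z : Fin 1 → V, (if H (insert (z 0) (univ.image y)) then (1 : ℝ) else 0) :=
        (Fintype.sum_equiv (Equiv.funUnique (Fin 1) V) _ _ fun z => rfl).symm
      rw [e3, e4]
    refine (Finset.sum_le_sum fun y _ => e1 y).trans (le_of_eq ?_)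
    rw [Finset.sum_const, Finset.card_univ, Fintype.card_fun, Fintype.card_fin, nsmul_eq_mul]
    push_cast
    ring
  have h4 : ∑ S : Fin s → V, (((univ.filter fun i : Fin s => S i ∈ Bad).card : ℝ) / s +
      (∑ i, |sdg l H S i - dg l H (S i)|) / s +
      (∑ y : Fin l → V, |Wt l H S y - Dt l H y|) / (Fintype.card V : ℝ) ^ l) ≤
      ∑ _S : Fin s → V, (ε + (2 * l + 2) / Real.sqrt s) := by
    rw [Finset.sum_add_distrib, Finset.sum_add_distrib, Finset.sum_const, Finset.card_univ,
      Fintype.card_fun, Fintype.card_fin, nsmul_eq_mul]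
    push_cast
    have e1 : (Fintype.card V : ℝ) ^ s * (ε + (2 * l + 2) / Real.sqrt s) =
        ε * (Fintype.card V : ℝ) ^ s + 2 * l / Real.sqrt s * (Fintype.card V : ℝ) ^ s +
        2 / Real.sqrt s * (Fintype.card V : ℝ) ^ s := by ring
    rw [e1]
    linarith
  obtain ⟨S, _, hS⟩ := Finset.exists_le_of_sum_le Finset.univ_nonempty h4
  have p1 : 0 ≤ ((univ.filter fun i : Fin s => S i ∈ Bad).card : ℝ) / s := by positivity
  have p2 : 0 ≤ (∑ i, |sdg l H S i - dg l H (S i)|) / s :=
    div_nonneg (Finset.sum_nonneg fun i _ => abs_nonneg _) hs0.le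
  have p3 : 0 ≤ (∑ y : Fin l → V, |Wt l H S y - Dt l H y|) / (Fintype.card V : ℝ) ^ l :=
    div_nonneg (Finset.sum_nonneg fun i _ => abs_nonneg _) (by positivity)
  refine ⟨S, ?_, ?_, ?_⟩
  · rw [← div_le_iff₀ hs0]
    linarith
  · rw [← div_le_iff₀ hs0]
    linarith
  · rw [← div_le_iff₀ (by positivity)]
    linarith

end Pool.Agent.N123.CT.GS
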